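import Mathlib
import Pool.Agent.X99.GQ.Stm
import Pool.Agent.Y687.JQ.Stm

/-!
# Joint laws for the matrices of quadratic symbols, arbitrary classes

After project JQ (helper687 and others).  `W` is a fixed finite set of primes, `𝒰` a set of subsets
of `W`; `G` is a property of the sets `S`, which has probability `c` in the boxes.
-/

set_option autoImplicit false
set_option linter.unusedVariables false

open scoped Classical

namespace Pool.Agent.X99.GJ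

open Finset
open Pool.Agent.Y703.CX (sm la jj XX eL zz kk S_SIE)
open Pool.Agent.Y703.CQ (nr sg prs HB S_EQ ext GdA S_SYM S_C2 S_LA c2)
open Pool.Agent.X99.GQ

variable (P : Par)

/-- jointly good -/
def GdJ (f : ℕ → ZMod 2) (𝒰 : Finset (Finset ℕ)) (S : Finset ℕ) : Prop :=
  ∀ U ∈ 𝒰, Gd P f (symmDiff S U)

/-- the masks -/
def OkW (W : Finset ℕ) (𝒰 : Finset (Finset ℕ)) : Prop :=
  (∀ u ∈ W, u.Prime ∧ Nat.Coprime u P.N) ∧ ∀ U ∈ 𝒰, U ⊆ W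

/-- the labels of the large primes `S₁` with respect to the small ones `S₀` and to `W` are not
degenerate, and they separate the masks -/
def NdJ (R : ℕ) (W : Finset ℕ) (𝒰 : Finset (Finset ℕ)) (S₀ S₁ : Finset ℕ) : Prop :=
  Nd P (S₀ ∪ W) S₁ ∧ 2 * (S₀ ∪ W).card + R ≤ (S₁.filter fun p => p % P.N ∈ P.A).card ∧
    ∀ U ∈ 𝒰, ∀ U' ∈ 𝒰, U ≠ U' → 2 * (S₀ ∪ W).card + R ≤
      (S₁.filter fun p => p % P.N ∈ P.A ∧ ∑ u ∈ symmDiff U U', nr p u ≠ 0).card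

/-- the property `G` has probability `c` up to `ε` in the boxes with labels which are not degenerate -/
def BX (W : Finset ℕ) (𝒰 : Finset (Finset ℕ)) (G : Finset ℕ → Prop) (c ε : ℝ) (R : ℕ) : Prop :=
  ∀ (ι : Type) [Fintype ι] [LinearOrder ι] (J1 : Finset ι) (C : ι → Finset ℕ) (X : ι → ℕ) (κ : ℝ)
  (S₀ : Finset ℕ), 0 ≤ κ →
  (∀ i, (C i).card ≤ X i) → HB J1 C X κ → (∀ u ∈ S₀ ∪ W, u.Prime ∧ u ≠ 2) →
  (∀ i, ∀ p ∈ C i, p.Prime ∧ p ≠ 2 ∧ p ∉ S₀ ∪ W ∧ (i ∈ J1 ↔ p % P.N ∈ P.A)) →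
  (∀ i l, i ≠ l → Disjoint (C i) (C l)) → (∃ i, i ∉ J1) →
  |(((Fintype.piFinset C).filter fun p => NdJ P R W 𝒰 S₀ (univ.image p) ∧
      G (S₀ ∪ univ.image p)).card : ℝ) -
      c * (((Fintype.piFinset C).filter fun p => NdJ P R W 𝒰 S₀ (univ.image p)).card : ℝ)| ≤
    ε * (((Fintype.piFinset C).filter fun p => NdJ P R W 𝒰 S₀ (univ.image p)).card : ℝ) +
    2 ^ ((2 * (S₀ ∪ W).card + 1) * Fintype.card ι + (prs J1).card) * (κ * ∏ j, (X j : ℝ))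

/-- the property `G` has probability `c` in the boxes -/
def BXA (W : Finset ℕ) (𝒰 : Finset (Finset ℕ)) (G : Finset ℕ → Prop) (c : ℝ) : Prop :=
  ∀ ε : ℝ, 0 < ε → ∃ R : ℕ, BX P W 𝒰 G c ε R

/-- the sum over the boxes. -/
def S_KEYJ : Prop := S_BIL → ∃ C : ℝ, 1 ≤ C ∧
  ∀ (W : Finset ℕ) (𝒰 : Finset (Finset ℕ)) (G : Finset ℕ → Prop) (c ε : ℝ) (R : ℕ)
  (X z H k V N : ℕ) (κ : ℝ), 0 < ε → BX P W 𝒰 G c ε R → OkW P W 𝒰 → (∀ u ∈ W, u ≤ z) →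
  W.card ≤ k → 1 ≤ X → 1 ≤ H → 1 ≤ z → 0 ≤ κ → C ≤ κ ^ 12 * z → (H : ℝ) * Real.log X < N →
  |(((RR P X z H k V).filter fun S => NdJ P R W 𝒰 (sm z S) (la z S) ∧ G S).card : ℝ) -
      c * (((RR P X z H k V).filter fun S => NdJ P R W 𝒰 (sm z S) (la z S)).card : ℝ)| ≤
    ε * ((RR P X z H k V).card : ℝ) +
    (P.N * N + 1 : ℝ) ^ k * (3 ^ (6 * k ^ 2) * κ) * (X * (1 + Real.log X))

/-- few sets have degenerate labels. -/
def S_BADJ (W : Finset ℕ) (η : ℝ) : Prop := ∃ (C : ℝ) (X₀ : ℕ), ∀ X : ℕ, X₀ ≤ X →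
  (((SS P X).filter fun S => S.card ≤ kk X ∧ ¬ Nd P (sm (zz X) S ∪ W) (la (zz X) S)).card : ℝ) ≤
    C * X * (Real.log X) ^ (-1 + (al P + be P) - η : ℝ)

/-- the lower half of Mertens' theorem for the split primes on which a product of primes is not a
square. -/
def S_MERJ : Prop := ∀ e : Finset ℕ, e.Nonempty → (∀ u ∈ e, u.Prime ∧ Nat.Coprime u P.N) →
  ∃ C : ℝ, ∀ y : ℕ, 3 ≤ y → al P / 2 * Real.log (Real.log y) - C ≤
  ∑ p ∈ (range (y + 1)).filter (fun p => Sp P p ∧ p ∉ e ∧ ∑ u ∈ e, nr p u ≠ 0), (1 : ℝ) / p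

/-- few sets have few large split primes on which a product of primes is not a square. -/
def S_FEWJ (e : Finset ℕ) (η : ℝ) : Prop := ∀ V : ℕ, ∃ (C : ℝ) (X₀ : ℕ), ∀ X : ℕ, X₀ ≤ X →
  (((SS P X).filter fun S => ((la (zz X) S).filter fun p => p % P.N ∈ P.A ∧
      ∑ u ∈ e, nr p u ≠ 0).card < 2 * (sm (zz X) S).card + V).card : ℝ) ≤
    C * X * (Real.log X) ^ (-1 + (al P + be P) - η : ℝ)

end Pool.Agent.X99.GJ
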