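import Mathlib
import Pool.Agent.Y405.JQ.MER
import Pool.Agent.X99.GQ.Box
import Pool.Agent.X99.GJ.Stm
import Pool.Agent.X99.GJ.Key

/-!
# Mertens' theorem for the split primes on which a fixed product of primes is not a square
(after `Pool.Agent.Y405.JQ.MER` of helper405)
-/

set_option autoImplicit false

open scoped Classical

namespace Pool.Agent.X99.GJ

open Finset
open Pool.Agent.Y703.CQ (nr)
open Pool.Agent.X99.GQ
open Pool.Agent.Y405.JQ (sg_neg card_neg jac_sum)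
open scoped NumberTheorySymbols

variable {P : Par}

/-- a class with symbol `-1` -/
theorem exists_neg (m : ℕ) (e : Finset ℕ) (hne : e.Nonempty) (he : ∀ u ∈ e, u.Prime ∧ u ≠ 2)
    (hm : m = ∏ u ∈ e, u) : ∃ b : ℕ, J((b : ℤ) | m) = -1 := by
  obtain ⟨u, hu⟩ := hne
  have : Fact u.Prime := ⟨(he u hu).1⟩
  have hchar : ringChar (ZMod u) ≠ 2 := by
    rw [ZMod.ringChar_zmod_n]
    exact (he u hu).2
  obtain ⟨n, hn⟩ := FiniteField.exists_nonsquare hchar
  have hm' : m = u * ∏ v ∈ e.erase u, v := by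
    rw [hm, mul_prod_erase e (fun v => v) hu]
  have hcop : u.Coprime (∏ v ∈ e.erase u, v) := by
    refine Nat.Coprime.prod_right fun v hv => ?_
    rw [mem_erase] at hv
    exact (Nat.coprime_primes (he u hu).1 (he v hv.2).1).mpr (Ne.symm hv.1)
  obtain ⟨b, hb1, hb2⟩ := Nat.chineseRemainder hcop n.val 1
  have hu0 : u ≠ 0 := (he u hu).1.ne_zero
  have hr0 : ∏ v ∈ e.erase u, v ≠ 0 := prod_ne_zero_iff.mpr fun v hv =>
    (he v (mem_of_mem_erase hv)).1.ne_zero
  refine ⟨b, ?_⟩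
  rw [hm', jacobiSym.mul_right' _ hu0 hr0]
  have h1 : J((b : ℤ) | u) = -1 := by
    have h2 : J((b : ℤ) | u) = J((n.val : ℤ) | u) := by
      apply jacobiSym.mod_left'
      exact_mod_cast hb1
    rw [h2]
    apply ZMod.nonsquare_iff_jacobiSym_eq_neg_one.mpr
    rw [Int.cast_natCast, ZMod.natCast_zmod_val]
    exact hn
  have h3 : J((b : ℤ) | ∏ v ∈ e.erase u, v) = 1 := by
    have h2 : J((b : ℤ) | ∏ v ∈ e.erase u, v) = J(1 | ∏ v ∈ e.erase u, v) := by
      apply jacobiSym.mod_left'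
      exact_mod_cast hb2
    rw [h2, jacobiSym.one_left]
  rw [h1, h3]
  norm_num

/-- the classes -/
noncomputable def AA (P : Par) (m : ℕ) : Finset ℕ := (range (P.N * m)).filter fun a =>
  a % P.N ∈ P.A ∧ J((a : ℤ) | m) = -1

theorem card_AA (hO : Ok P) (m : ℕ) (hcop : Nat.Coprime P.N m) :
    (AA P m).card = P.A.card * ((range m).filter fun a : ℕ => J((a : ℤ) | m) = -1).card := by
  rw [← card_product]
  have hJ : ∀ a : ℕ, J(((a % m : ℕ) : ℤ) | m) = J((a : ℤ) | m) := by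
    intro a
    rw [Int.natCast_mod, ← jacobiSym.mod_left]
  refine card_bij (fun a _ => (a % P.N, a % m)) ?_ ?_ ?_
  · intro a ha
    obtain ⟨h1, h2, h5⟩ := mem_filter.mp ha
    have hm0 : 0 < m := by
      rw [mem_range] at h1
      by_contra h
      have : m = 0 := by omega
      rw [this] at h1
      omega
    rw [mem_product, mem_filter, mem_range]
    refine ⟨h2, Nat.mod_lt _ hm0, ?_⟩
    show J(((a % m : ℕ) : ℤ) | m) = -1
    rw [hJ, h5]
  · intro a ha b hb hab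
    rw [Prod.mk.injEq] at hab
    have h1 : a ≡ b [MOD P.N * m] := (Nat.modEq_and_modEq_iff_modEq_mul hcop).mp hab
    exact h1.eq_of_lt_of_lt (mem_range.mp (mem_filter.mp ha).1) (mem_range.mp (mem_filter.mp hb).1)
  · rintro ⟨x, y⟩ hxy
    rw [mem_product, mem_filter, mem_range] at hxy
    obtain ⟨hx1, hy1, hy2⟩ := hxy
    simp only [] at hx1 hy1 hy2
    have hx2 : x < P.N := (hO.cop x (mem_union_left _ hx1)).1
    have hm0 : m ≠ 0 := by
      rintro rfl
      exact absurd hy1 (Nat.not_lt_zero _)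
    have hlt := Nat.chineseRemainder_lt_mul hcop x y hO.pos.ne' hm0
    obtain ⟨k, hk⟩ : ∃ k, k = Nat.chineseRemainder hcop x y := ⟨_, rfl⟩
    rw [← hk] at hlt
    obtain ⟨k, hk1, hk2⟩ := k
    clear hk
    have h56 : k % P.N = x := by
      rw [hk1, Nat.mod_eq_of_lt hx2]
    have hmm : k % m = y := by
      rw [hk2, Nat.mod_eq_of_lt hy1]
    refine ⟨k, mem_filter.mpr ⟨mem_range.mpr hlt, by rw [h56]; exact hx1, ?_⟩, ?_⟩
    · rw [← hJ, hmm, hy2]
    · rw [h56, hmm]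

theorem t_MERJ (hO : Ok P) : S_MERJ P := by
  intro e hne he
  obtain ⟨m, hm⟩ : ∃ m : ℕ, m = ∏ u ∈ e, u := ⟨_, rfl⟩
  have hm0 : m ≠ 0 := by
    rw [hm]
    exact prod_ne_zero_iff.mpr fun v hv => (he v hv).1.ne_zero
  have hcop : Nat.Coprime P.N m := by
    rw [hm]
    exact Nat.Coprime.prod_right fun u hu => (he u hu).2.symm
  have he2 : ∀ u ∈ e, u.Prime ∧ u ≠ 2 := fun u hu => ⟨(he u hu).1, ne_two hO (he u hu).2⟩
  have hodd : Odd m := by
    rw [← Nat.not_even_iff_odd, even_iff_two_dvd]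
    intro h
    have h0 : 2 ∣ P.N := Dvd.dvd.trans ⟨2, by norm_num⟩ hO.four
    have h1 : 2 ∣ Nat.gcd P.N m := Nat.dvd_gcd h0 h
    rw [hcop] at h1
    norm_num at h1
  obtain ⟨b, hb⟩ := exists_neg m e hne he2 hm
  have hcard : 2 * (AA P m).card * Nat.totient P.N = P.A.card * Nat.totient (P.N * m) := by
    have h1 := card_neg m hm0 b hb
    rw [card_AA hO m hcop, Nat.totient_mul hcop, ← h1]
    ring
  have hQ : 1 ≤ P.N * m := Nat.mul_pos hO.pos (Nat.pos_of_ne_zero hm0)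
  have hJc : ∀ a : ℕ, J((a : ℤ) | m) = -1 → Nat.Coprime a m := by
    intro a ha
    have h1 : J((a : ℤ) | m) ≠ 0 := by rw [ha]; norm_num
    rw [Ne, jacobiSym.eq_zero_iff, not_and_or] at h1
    rcases h1 with h1 | h1
    · exact absurd hm0 h1
    · rw [not_not, Int.gcd_natCast_natCast] at h1
      exact h1
  have hmer : ∀ a ∈ AA P m, ∃ C : ℝ, 0 ≤ C ∧ ∀ x : ℕ, 3 ≤ x →
      |∑ p ∈ (Icc 1 x).filter (fun p => p.Prime ∧ p % (P.N * m) = a), (1 : ℝ) / p -
        1 / (Nat.totient (P.N * m) : ℝ) * Real.log (Real.log x)| ≤ C := by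
    intro a ha
    obtain ⟨h1, h2, h4⟩ := mem_filter.mp ha
    refine Pool.Agent.Y405.CQ.mertens_ap (P.N * m) hQ a (mem_range.mp h1) ?_
    refine Nat.Coprime.mul_right ?_ (hJc a h4)
    have h5 : (a % P.N).Coprime P.N := (hO.cop _ (mem_union_left _ h2)).2
    rw [Nat.coprime_iff_gcd_eq_one, ← Nat.gcd_rec, Nat.gcd_comm] at h5
    exact h5
  choose! C hC0 hC using hmer
  refine ⟨∑ a ∈ AA P m, C a, fun y hy => ?_⟩
  -- the condition in terms of the class
  have hcond : ∀ p : ℕ, p.Prime → ((Sp P p ∧ p ∉ e ∧ ∑ u ∈ e, nr p u ≠ 0) ↔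
      p % (P.N * m) ∈ AA P m) := by
    intro p hp
    have e1 : p % (P.N * m) % P.N = p % P.N := Nat.mod_mod_of_dvd _ ⟨m, rfl⟩
    have e3 : J(((p % (P.N * m) : ℕ) : ℤ) | m) = J((p : ℤ) | m) := by
      rw [jacobiSym.mod_left, ← Int.natCast_mod, Nat.mod_mod_of_dvd _ ⟨P.N, by ring⟩,
        Int.natCast_mod, ← jacobiSym.mod_left]
    have e4 : p % P.N ∈ P.A → p ∉ e → J((p : ℤ) | m) = Pool.Agent.Y405.JQ.sg (∑ u ∈ e, nr p u) := by
      intro g1 g2
      rw [jacobiSym.quadratic_reciprocity_one_mod_four (hO.mod4 g1) hodd, hm]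
      exact jac_sum p hp e (fun u hu => (he u hu).1) g2
    rw [AA, mem_filter, mem_range, e1, e3]
    constructor
    · rintro ⟨⟨-, g1⟩, g3, g4⟩
      refine ⟨Nat.mod_lt _ hQ, g1, ?_⟩
      rw [e4 g1 g3, sg_neg]
      exact g4
    · rintro ⟨-, g1, g3⟩
      have g4 : p ∉ e := by
        intro h
        have h5 := hJc p g3
        have h6 : p ∣ m := by
          rw [hm]
          exact dvd_prod_of_mem _ h
        exact hp.one_lt.ne' (Nat.eq_one_of_dvd_coprimes h5 dvd_rfl h6)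
      refine ⟨⟨hp, g1⟩, g4, ?_⟩
      rw [e4 g1 g4, sg_neg] at g3
      exact g3
  have hsum : ∑ p ∈ (range (y + 1)).filter (fun p => Sp P p ∧ p ∉ e ∧ ∑ u ∈ e, nr p u ≠ 0),
      (1 : ℝ) / p = ∑ a ∈ AA P m, ∑ p ∈ (Icc 1 y).filter
        (fun p => p.Prime ∧ p % (P.N * m) = a), (1 : ℝ) / p := by
    rw [← sum_fiberwise_of_maps_to (s := (range (y + 1)).filter
      (fun p => Sp P p ∧ p ∉ e ∧ ∑ u ∈ e, nr p u ≠ 0)) (t := AA P m) (g := fun p => p % (P.N * m))]
    · refine sum_congr rfl fun a ha => ?_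
      refine sum_congr ?_ fun _ _ => rfl
      ext p
      rw [mem_filter, mem_filter, mem_filter, mem_range, mem_Icc]
      constructor
      · rintro ⟨⟨g1, g2⟩, g3⟩
        exact ⟨⟨g2.1.1.one_lt.le, by omega⟩, g2.1.1, g3⟩
      · rintro ⟨⟨g0, g1⟩, g2, g3⟩
        refine ⟨⟨by omega, (hcond p g2).mpr ?_⟩, g3⟩
        rw [g3]
        exact ha
    · intro p hp
      have hp' := (mem_filter.mp hp).2
      exact (hcond p hp'.1.1).mp hp'
  have hphi : (0 : ℝ) < (Nat.totient (P.N * m) : ℝ) := by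
    exact_mod_cast Nat.totient_pos.mpr (by omega)
  have hphi1 : (0 : ℝ) < (Nat.totient P.N : ℝ) := by
    exact_mod_cast Nat.totient_pos.mpr hO.pos
  have hconst : al P / 2 * Real.log (Real.log y) =
      ∑ a ∈ AA P m, 1 / (Nat.totient (P.N * m) : ℝ) * Real.log (Real.log y) := by
    rw [sum_const, nsmul_eq_mul, ← mul_assoc]
    congr 1
    have h1 : 2 * ((AA P m).card : ℝ) * (Nat.totient P.N : ℝ) =
        (P.A.card : ℝ) * (Nat.totient (P.N * m) : ℝ) := by
      exact_mod_cast hcard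
    unfold al
    field_simp
    linarith
  have hfin : |∑ p ∈ (range (y + 1)).filter (fun p => Sp P p ∧ p ∉ e ∧ ∑ u ∈ e, nr p u ≠ 0),
      (1 : ℝ) / p - al P / 2 * Real.log (Real.log y)| ≤ ∑ a ∈ AA P m, C a := by
    rw [hsum, hconst, ← sum_sub_distrib]
    exact (abs_sum_le_sum_abs _ _).trans (sum_le_sum fun a ha => hC a ha y hy)
  have := (abs_le.1 hfin).1
  linarith

end Pool.Agent.X99.GJ
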