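import Mathlib
import Pool.Agent.X99.GQ.Fin
import Pool.Agent.X99.GJ.Stm
import Pool.Agent.X99.GJ.Box
import Pool.Agent.X99.GJ.Key
import Pool.Agent.X99.GJ.Bad
import Pool.Agent.X99.GJ.Few
import Pool.Agent.X99.GJ.Mer
import Pool.Agent.Y697.JQ.LA

/-!
# Joint laws: the final asymptotics, after the file `Pool/Agent/Y687/JQ/Asy.lean` of helper687
-/

set_option autoImplicit false
set_option linter.unusedVariables false

open scoped Classical
open Finset Filter

namespace Pool.Agent.X99.GJ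

open Pool.Agent.Y703.CX (sm la jj XX eL zz kk S_SIE eL_tendsto logX_eq rpow_eL HH NN ev_eL one_le_exp
  HH_ge HH_le HH_pos kk_ge kk_le X_pos one_add_log lin_le kap zz_ge zz_pos kap_nonneg kap_pow kap_le)
open Pool.Agent.Y703.CQ (nr sg prs HB S_EQ ext GdA S_SYM S_C2 S_LA c2 Sml sml_of sml_add sml_rpow cmp)
open Pool.Agent.X99.GQ
open Pool.Agent.X99.GQ.As (sml_many sml_cut sml_coll)

variable {P : Par}

/-- the main error term -/
theorem sml_mainJ (hN1 : 1 ≤ P.N) {C : ℝ} (hC : 1 ≤ C) {t : ℝ} (ht : t < 1) : Sml t fun X => (P.N * (NN X : ℝ) + 1) ^ kk X *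
    (3 ^ (6 * kk X ^ 2) * kap C X) * (X * (1 + Real.log X)) := by
  apply sml_of (C := 4 * C) (a := 1) ht
  filter_upwards [ev_eL 11000, ev_eL (4 * P.N)] with X hX hXN
  set l := eL X with hl
  have h0 : 0 < eL X := by linarith
  have h1 : 1 ≤ eL X := by linarith
  have hX0 : (0 : ℝ) ≤ X := Nat.cast_nonneg _
  have hN : P.N * (NN X : ℝ) + 1 ≤ Real.exp (5 * l) := by
    have h2 : (NN X : ℝ) ≤ HH X * Real.log X + 1 := by
      unfold NN
      push_cast
      have := Nat.floor_le (a := (HH X : ℝ) * Real.log X)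
        (mul_nonneg (Nat.cast_nonneg _) (Real.log_natCast_nonneg X))
      linarith
    have h3 : (HH X : ℝ) * Real.log X ≤ 2 * Real.exp (4 * l) := by
      rw [logX_eq h0]
      calc (HH X : ℝ) * Real.exp (eL X) ≤ 2 * Real.exp (3 * eL X) * Real.exp (eL X) :=
            mul_le_mul_of_nonneg_right (HH_le h0) (Real.exp_pos _).le
        _ = 2 * Real.exp (4 * l) := by
            rw [mul_assoc, ← Real.exp_add]
            congr 2
            rw [hl]
            ring
    have h4 : 1 ≤ Real.exp (4 * l) := one_le_exp (by linarith)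
    have h5 : 4 * (P.N : ℝ) ≤ Real.exp l := by
      have := Real.add_one_le_exp l
      linarith
    have hP1 : (1 : ℝ) ≤ P.N := by exact_mod_cast hN1
    have h6 : Real.exp (5 * l) = Real.exp (4 * l) * Real.exp l := by
      rw [← Real.exp_add]; congr 1; ring
    rw [h6]
    have h7 : (NN X : ℝ) ≤ 3 * Real.exp (4 * l) := by linarith
    calc (P.N : ℝ) * (NN X : ℝ) + 1 ≤ P.N * (3 * Real.exp (4 * l)) + P.N * Real.exp (4 * l) := by
          have a1 := mul_le_mul_of_nonneg_left h7 (by linarith : (0 : ℝ) ≤ P.N)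
          have a2 : (1 : ℝ) * 1 ≤ P.N * Real.exp (4 * l) := mul_le_mul hP1 h4 (by norm_num) (by linarith)
          linarith
      _ = Real.exp (4 * l) * (4 * P.N) := by ring
      _ ≤ Real.exp (4 * l) * Real.exp l := mul_le_mul_of_nonneg_left h5 (Real.exp_pos _).le
  have hkk := kk_le h1
  have hkk0 : (0 : ℝ) ≤ kk X := Nat.cast_nonneg _
  have hA : (P.N * (NN X : ℝ) + 1) ^ kk X ≤ Real.exp (55 * l ^ 2) := by
    calc (P.N * (NN X : ℝ) + 1) ^ kk X ≤ (Real.exp (5 * l)) ^ kk X := by gcongr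
      _ = Real.exp (kk X * (5 * l)) := (Real.exp_nat_mul _ _).symm
      _ ≤ Real.exp (55 * l ^ 2) := by
          apply Real.exp_le_exp.2
          nlinarith
  have hB : (3 : ℝ) ^ (6 * kk X ^ 2) ≤ Real.exp (800 * l ^ 2) := by
    have e : (3 : ℝ) ^ (6 * kk X ^ 2) = Real.exp ((6 * (kk X : ℝ) ^ 2) * Real.log 3) := by
      rw [mul_comm (6 * (kk X : ℝ) ^ 2) (Real.log 3), Real.exp_mul, Real.exp_log (by norm_num)]
      rw [← Real.rpow_natCast]
      congr 1
      push_cast
      ring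
    rw [e]
    apply Real.exp_le_exp.2
    have h2 : Real.log 3 ≤ 1.1 := by
      have h3 : (3 : ℝ) ≤ Real.exp 1.1 := by
        have h4 : (2.7182818283 : ℝ) < Real.exp 1 := Real.exp_one_gt_d9
        have h5 : (1.105 : ℝ) ≤ Real.exp 0.1 := by
          have := Real.quadratic_le_exp_of_nonneg (x := 0.1) (by norm_num)
          norm_num at this ⊢
          linarith
        have h6 : Real.exp 1.1 = Real.exp 1 * Real.exp 0.1 := by
          rw [← Real.exp_add]; norm_num
        rw [h6]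
        nlinarith
      calc Real.log 3 ≤ Real.log (Real.exp 1.1) := Real.log_le_log (by norm_num) h3
        _ = 1.1 := Real.log_exp _
    have h3 : (kk X : ℝ) ^ 2 ≤ 121 * l ^ 2 := by nlinarith
    have h4 : 0 ≤ (kk X : ℝ) ^ 2 := sq_nonneg _
    nlinarith [sq_nonneg l]
  have hK := kap_le hC h1
  have hLg := one_add_log h0
  have hmain : (P.N * (NN X : ℝ) + 1) ^ kk X * (3 ^ (6 * kk X ^ 2) * kap C X) *
      (X * (1 + Real.log X)) ≤ Real.exp (55 * l ^ 2) * (Real.exp (800 * l ^ 2) *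
        (2 * C * Real.exp (-l ^ 3 / 12))) * (X * (2 * Real.exp l)) := by
    have := kap_nonneg hC X
    have : 0 ≤ 1 + Real.log X := by
      have := Real.log_natCast_nonneg X
      linarith
    gcongr
  refine hmain.trans ?_
  have e : Real.exp (55 * l ^ 2) * (Real.exp (800 * l ^ 2) *
        (2 * C * Real.exp (-l ^ 3 / 12))) * (X * (2 * Real.exp l)) =
      4 * C * (X * Real.exp (55 * l ^ 2 + 800 * l ^ 2 + -l ^ 3 / 12 + l)) := by
    rw [Real.exp_add, Real.exp_add, Real.exp_add]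
    ring
  rw [e]
  have h9 : 55 * l ^ 2 + 800 * l ^ 2 + -l ^ 3 / 12 + l ≤ -1 * l := by
    have h10 : 11000 * l ^ 2 ≤ l ^ 3 := by
      have : l ^ 3 = l * l ^ 2 := by ring
      rw [this]
      exact mul_le_mul_of_nonneg_right hX (sq_nonneg l)
    nlinarith
  have h11 := Real.exp_le_exp.2 h9
  have hC0 : (0 : ℝ) ≤ 4 * C := by linarith
  gcongr

/-- the pairs of masks -/
noncomputable def prU (𝒰 : Finset (Finset ℕ)) : Finset (Finset ℕ × Finset ℕ) :=
  (𝒰 ×ˢ 𝒰).filter fun e => e.1 ≠ e.2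

/-- the sets with few large split primes on which the product of `e` is not a square -/
noncomputable def few (P : Par) (X z R : ℕ) (e : Finset ℕ) : Finset (Finset ℕ) :=
  (SS P X).filter fun S => ((la z S).filter fun p => p % P.N ∈ P.A ∧
      ∑ u ∈ e, nr p u ≠ 0).card < 2 * (sm z S).card + R

/-- the sets outside the regular part -/
theorem out_subJ (W : Finset ℕ) (𝒰 : Finset (Finset ℕ)) (X z H k R : ℕ) :
    SS P X \ ((RR P X z H k (2 * W.card + R)).filter fun S => NdJ P R W 𝒰 (sm z S) (la z S)) ⊆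
      ((((((SS P X).filter fun S => k < S.card) ∪
      ((SS P X).filter fun S => S.card ≤ k ∧
        X < (∏ p ∈ sm z S, p) * ∏ p ∈ la z S, XX H (jj H p))) ∪
      ((SS P X).filter fun S => ¬ Set.InjOn (jj H) (la z S : Set ℕ))) ∪
      ((SS P X).filter fun S => ((la z S).filter fun p => p % P.N ∈ P.A).card ≤
        2 * (sm z S).card + (2 * W.card + R) ∨ ∀ p ∈ la z S, p % P.N ∈ P.A)) ∪
      ((SS P X).filter fun S => S.card ≤ k ∧ ¬ Nd P (sm z S ∪ W) (la z S))) ∪
      (prU 𝒰).biUnion fun e => few P X z (2 * W.card + R) (symmDiff e.1 e.2) := by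
  intro S hS
  rw [Finset.mem_sdiff, Finset.mem_filter] at hS
  obtain ⟨h1, h2⟩ := hS
  by_contra hc
  rw [mem_union, mem_union, mem_union, mem_union, mem_union] at hc
  simp only [mem_filter, mem_biUnion] at hc
  push Not at hc
  obtain ⟨⟨⟨⟨⟨c1, c2⟩, c3⟩, c4⟩, c5⟩, c6⟩ := hc
  have d1 : S.card ≤ k := c1 h1
  have d2 := c2 h1 d1
  have d3 := c3 h1
  have d4 := c4 h1
  have d5 := c5 h1 d1
  have hcu : (sm z S ∪ W).card ≤ (sm z S).card + W.card := card_union_le _ _
  apply h2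
  refine ⟨?_, d5, ?_, ?_⟩
  · unfold RR
    rw [mem_filter]
    exact ⟨h1, d3, d1, d2, d4.1, d4.2⟩
  · have := d4.1
    omega
  · intro U hU U' hU' hne
    have h3 := c6 (U, U') (by
      unfold prU
      rw [mem_filter, mem_product]
      exact ⟨⟨hU, hU'⟩, hne⟩)
    have h4 : ¬ ((la z S).filter fun p => p % P.N ∈ P.A ∧
        ∑ u ∈ symmDiff U U', nr p u ≠ 0).card < 2 * (sm z S).card + (2 * W.card + R) := by
      intro h
      apply h3
      unfold few
      rw [mem_filter]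
      exact ⟨h1, h⟩
    omega

theorem sml_sum {α : Type} {t : ℝ} (s : Finset α) (E : α → ℕ → ℝ) (h : ∀ a ∈ s, Sml t (E a)) :
    Sml t fun X => ∑ a ∈ s, E a X := by
  induction s using Finset.induction_on with
  | empty =>
    intro δ hδ
    filter_upwards with X
    rw [sum_empty]
    positivity
  | insert a s ha ih =>
    have h1 := sml_add (h a (mem_insert_self a s)) (ih fun b hb => h b (mem_insert_of_mem hb))
    refine fun δ hδ => (h1 δ hδ).mono fun X hX => ?_
    show ∑ b ∈ insert a s, E b X ≤ _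
    rw [sum_insert ha]
    exact hX

theorem t_DQJ (hO : Ok P) {η : ℝ} (h1 : S_BIL) (hK : S_KEYJ P) (hC : CntP P) (hS : S_SIE)
    {W : Finset ℕ} {𝒰 : Finset (Finset ℕ)} (hW : OkW P W 𝒰)
    (hη : 0 < η) (hη1 : η < al P + be P)
    (hB : S_BADJ P W η) (hF : S_FEW P η) (hJF : ∀ e : Finset ℕ, e.Nonempty →
      (∀ u ∈ e, u.Prime ∧ Nat.Coprime u P.N) → S_FEWJ P e η) (hLo : S_LOW P)
    {G : Finset ℕ → Prop} {cc : ℝ} (hp0 : 0 ≤ cc) (hp1 : cc ≤ 1) (hG : BXA P W 𝒰 G cc) :
    Tendsto (fun X : ℕ => (((SS P X).filter G).card : ℝ) / ((SS P X).card : ℝ)) atTop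
      (nhds cc) := by
  obtain ⟨C, hC1, hkey⟩ := hK h1
  obtain ⟨CB, XB, hbad⟩ := hB
  obtain ⟨c, X₀, hc, hlow⟩ := hLo
  obtain ⟨dl, hdl⟩ : ∃ dl : ℝ, dl = al P + be P := ⟨_, rfl⟩
  rw [← hdl] at hη1 hbad hlow
  have hdp : 0 < dl := by linarith
  rw [Metric.tendsto_nhds]
  intro ε hε
  obtain ⟨R, hBX⟩ := hG (ε / 4) (by linarith)
  set V : ℕ := 2 * W.card + R with hV
  obtain ⟨CF, XF, hfew⟩ := hF hS V
  rw [← hdl] at hfew
  have s1 := sml_many (P := P) (t := 1 - dl) (by linarith) hC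
  have s2 := sml_cut (P := P) (t := 1 - dl) (by linarith) hC
  have s3 := sml_coll (P := P) (t := 1 - dl) (by linarith) hC
  have s4 := sml_rpow (t := 1 - dl) (by linarith) hfew
  have s5 := sml_rpow (t := 1 - dl) (by linarith) hbad
  have s6 := sml_mainJ (P := P) hO.pos hC1 (t := 1 - dl) (by linarith)
  have s7 : Sml (1 - dl) fun X => ∑ e ∈ prU 𝒰,
      ((few P X (zz X) V (symmDiff e.1 e.2)).card : ℝ) := by
    refine sml_sum _ _ fun e he => ?_
    unfold prU at he
    rw [mem_filter, mem_product] at he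
    have hne : (symmDiff e.1 e.2).Nonempty := by
      rw [Finset.nonempty_iff_ne_empty]
      intro h
      exact he.2 (symmDiff_eq_bot.1 h)
    have hsub : ∀ u ∈ symmDiff e.1 e.2, u ∈ W := by
      intro u hu
      rw [mem_symmDiff] at hu
      rcases hu with hu | hu
      · exact hW.2 _ he.1.1 hu.1
      · exact hW.2 _ he.1.2 hu.1
    obtain ⟨C', X', h⟩ := hJF (symmDiff e.1 e.2) hne (fun u hu => hW.1 u (hsub u hu)) V
    rw [← hdl] at h
    exact sml_rpow (t := 1 - dl) (by linarith) h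
  have s := sml_add (sml_add (sml_add (sml_add (sml_add (sml_add s1 s2) s3) s4) s5) s6) s7
  have hδ : (0 : ℝ) < c * ε / 4 := by positivity
  obtain ⟨WB, hWB⟩ : ∃ B : ℕ, ∀ u ∈ W, u ≤ B := ⟨W.sup id, fun u hu => Finset.le_sup (f := id) hu⟩
  have hzt : ∀ᶠ X : ℕ in atTop, WB ≤ zz X := by
    filter_upwards [ev_eL (WB + 1)] with X hX
    have h0 : (1 : ℝ) ≤ eL X := by
      have : (0 : ℝ) ≤ WB := Nat.cast_nonneg _
      linarith
    unfold zz
    apply Nat.le_floor
    have h2 : (WB : ℝ) ≤ (eL X) ^ 3 := by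
      have h3 : (1 : ℝ) * eL X ≤ (eL X) ^ 2 * eL X := by
        apply mul_le_mul_of_nonneg_right _ (by linarith)
        nlinarith
      have h4 : (eL X) ^ 3 = (eL X) ^ 2 * eL X := by ring
      linarith
    have h3 := Real.add_one_le_exp ((eL X) ^ 3)
    linarith
  have hkt : ∀ᶠ X : ℕ in atTop, W.card ≤ kk X := by
    filter_upwards [ev_eL (W.card + 1)] with X hX
    have h2 := kk_ge X
    have h0 : (0 : ℝ) ≤ W.card := Nat.cast_nonneg _
    have : (W.card : ℝ) ≤ kk X := by linarith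
    exact_mod_cast this
  filter_upwards [s (c * ε / 4) hδ, ev_eL 1, eventually_ge_atTop X₀, hzt, hkt] with X hX hl hX0 hz hk
  have hl0 : 0 < eL X := by linarith
  have hlo := hlow X hX0
  have e00 : (-1 + dl : ℝ) = -(1 - dl) := by ring
  rw [e00, rpow_eL hl0] at hlo
  have hXp := X_pos hl0
  have hXp' : (0 : ℝ) < X := by exact_mod_cast hXp
  have hSpos : (0 : ℝ) < ((SS P X).card : ℝ) := by
    refine lt_of_lt_of_le ?_ hlo
    positivity
  have hN : (HH X : ℝ) * Real.log X < NN X := by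
    unfold NN
    push_cast
    exact Nat.lt_floor_add_one _
  have hmain := hkey W 𝒰 G cc (ε / 4) R X (zz X) (HH X) (kk X) V (NN X) (kap C X)
    (by linarith) hBX hW (fun u hu => (hWB u hu).trans hz) hk hXp (HH_pos hl0) (zz_pos hl)
    (kap_nonneg hC1 X) (kap_pow hC1 hl) hN
  set T := (RR P X (zz X) (HH X) (kk X) V).filter fun S =>
    NdJ P R W 𝒰 (sm (zz X) S) (la (zz X) S) with hT
  have hTG : (RR P X (zz X) (HH X) (kk X) V).filter
      (fun S => NdJ P R W 𝒰 (sm (zz X) S) (la (zz X) S) ∧ G S) = T.filter G := by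
    rw [hT, filter_filter]
  rw [hTG] at hmain
  have hTS : T ⊆ SS P X := (filter_subset _ _).trans (filter_subset _ _)
  have hRS : ((RR P X (zz X) (HH X) (kk X) V).card : ℝ) ≤ ((SS P X).card : ℝ) := by
    exact_mod_cast card_le_card (filter_subset _ _)
  have hcmp := cmp G T (SS P X) hTS (cc) hp0 hp1
  have hout : ((SS P X \ T).card : ℝ) ≤
      ((((SS P X).filter fun S => kk X < S.card).card : ℝ) +
      (((SS P X).filter fun S => S.card ≤ kk X ∧
        X < (∏ p ∈ sm (zz X) S, p) * ∏ p ∈ la (zz X) S, XX (HH X) (jj (HH X) p)).card : ℝ) +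
      (((SS P X).filter fun S => ¬ Set.InjOn (jj (HH X)) (la (zz X) S : Set ℕ)).card : ℝ) +
      (((SS P X).filter fun S => ((la (zz X) S).filter fun p => p % P.N ∈ P.A).card ≤
        2 * (sm (zz X) S).card + V ∨ ∀ p ∈ la (zz X) S, p % P.N ∈ P.A).card : ℝ)) +
      (((SS P X).filter fun S => S.card ≤ kk X ∧
        ¬ Nd P (sm (zz X) S ∪ W) (la (zz X) S)).card : ℝ) +
      ∑ e ∈ prU 𝒰, ((few P X (zz X) V (symmDiff e.1 e.2)).card : ℝ) := by
    have g := card_le_card (out_subJ (P := P) W 𝒰 X (zz X) (HH X) (kk X) R)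
    rw [← hV, ← hT] at g
    have g3 := Finset.card_biUnion_le (s := prU 𝒰)
      (t := fun e => few P X (zz X) V (symmDiff e.1 e.2))
    have g2 := ((g.trans (card_union_le _ _)).trans (Nat.add_le_add_right
      ((card_union_le _ _).trans (Nat.add_le_add_right ((card_union_le _ _).trans
      (Nat.add_le_add_right ((card_union_le _ _).trans
      (Nat.add_le_add_right (card_union_le _ _) _)) _)) _)) _)).trans (Nat.add_le_add_left g3 _)
    exact_mod_cast g2
  have htot : |(((SS P X).filter G).card : ℝ) - cc * ((SS P X).card : ℝ)| ≤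
      ε / 4 * ((SS P X).card : ℝ) +
        c * ε / 4 * (X * Real.exp (-(1 - dl) * eL X)) := by
    have g1 : ε / 4 * ((RR P X (zz X) (HH X) (kk X) V).card : ℝ) ≤
        ε / 4 * ((SS P X).card : ℝ) := mul_le_mul_of_nonneg_left hRS (by positivity)
    linarith
  rw [Real.dist_eq]
  have e3 : (((SS P X).filter G).card : ℝ) / ((SS P X).card : ℝ) - cc =
      ((((SS P X).filter G).card : ℝ) - cc * ((SS P X).card : ℝ)) /
        ((SS P X).card : ℝ) := by
    field_simp
  rw [e3, abs_div, abs_of_pos hSpos, div_lt_iff₀ hSpos]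
  refine lt_of_le_of_lt htot ?_
  have g2 : c * ε / 4 * (X * Real.exp (-(1 - dl) * eL X)) ≤ ε / 4 * ((SS P X).card : ℝ) := by
    calc c * ε / 4 * (X * Real.exp (-(1 - dl) * eL X)) =
          ε / 4 * (c * X * Real.exp (-(1 - dl) * eL X)) := by ring
      _ ≤ _ := mul_le_mul_of_nonneg_left hlo (by linarith)
  have g4 : 0 < ε * ((SS P X).card : ℝ) := by positivity
  linarith

/-- **the general law**: a property of the sets which has probability `c` in the boxes has
probability `c` in the class -/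
theorem law (hO : Ok P) {h : ℝ} (hh0 : 0 ≤ h) (hH : HAL P h) (hh : h < al P)
    {W : Finset ℕ} {𝒰 : Finset (Finset ℕ)} (hW : OkW P W 𝒰)
    {G : Finset ℕ → Prop} {c : ℝ} (hc0 : 0 ≤ c) (hc1 : c ≤ 1) (hG : BXA P W 𝒰 G c) :
    Tendsto (fun X : ℕ => (((SS P X).filter G).card : ℝ) / ((SS P X).card : ℝ)) atTop
      (nhds c) := by
  have hal := Lo.al_pos hO
  have hbe := Lo.be_pos hO
  obtain ⟨η, hη⟩ : ∃ η : ℝ, η = min (min (al P / 8) (be P / 2)) ((al P - h) / 2) := ⟨_, rfl⟩
  have h0 : 0 < η := by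
    rw [hη]
    exact lt_min (lt_min (by linarith) (by linarith)) (by linarith)
  have h1 : η ≤ al P / 8 := by
    rw [hη]
    exact (min_le_left _ _).trans (min_le_left _ _)
  have h2 : η ≤ be P / 2 := by
    rw [hη]
    exact (min_le_left _ _).trans (min_le_right _ _)
  have h3 : η ≤ (al P - h) / 2 := by
    rw [hη]
    exact min_le_right _ _
  exact t_DQJ hO (η := η) t_BIL (t_KEYJ hO) Cn.t_CNT Pool.Agent.Y488.CX.t_SIE hW h0 (by linarith)
    (t_BADJ Pool.Agent.Y488.CX.t_SIE hO (t_MER hO) hh0 hH (by linarith) fun u hu => (hW.1 u hu).1)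
    (Fw.t_FEW hO (t_MER hO) h0 (by linarith) (by linarith))
    (fun e he hu => t_FEWJ Pool.Agent.Y488.CX.t_SIE (t_MER hO) (t_MERJ hO) hO he hu h1)
    (Lo.t_LOW hO) hc0 hc1 hG

/-- the law in terms of the numbers -/
theorem law_num (hO : Ok P) {h : ℝ} (hh0 : 0 ≤ h) (hH : HAL P h) (hh : h < al P)
    {W : Finset ℕ} {𝒰 : Finset (Finset ℕ)} (hW : OkW P W 𝒰)
    {G : Finset ℕ → Prop} {c : ℝ} (hc0 : 0 ≤ c) (hc1 : c ≤ 1) (hG : BXA P W 𝒰 G c) :
    Tendsto (fun X : ℕ => (((Icc 1 X).filter fun D => Squarefree D ∧ Cl P D.primeFactors ∧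
        G D.primeFactors).card : ℝ) /
      (((Icc 1 X).filter fun D => Squarefree D ∧ Cl P D.primeFactors).card : ℝ)) atTop
      (nhds c) := by
  refine (law hO hh0 hH hh hW hc0 hc1 hG).congr fun X => ?_
  have e1 := Pool.Agent.X99.GQ.card_eq P X G
  have e2 := Pool.Agent.X99.GQ.card_eq P X (fun _ => True)
  rw [Finset.filter_true] at e2
  simp only [and_true] at e2
  rw [← e1, ← e2]

theorem c2_pow (n : ℕ) : 0 ≤ c2 ^ n ∧ c2 ^ n ≤ 1 := by
  have hc2 := Pool.Agent.Y948.CQ.t_C2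
  exact ⟨pow_nonneg hc2.2.1.le _, pow_le_one₀ hc2.2.1.le hc2.2.2.1.le⟩

/-- **the joint law** -/
theorem JDEN (hO : Ok P) {h : ℝ} (hh0 : 0 ≤ h) (hH : HAL P h) (hh : h < al P)
    {W : Finset ℕ} {𝒰 : Finset (Finset ℕ)} (hW : OkW P W 𝒰) (f : ℕ → ZMod 2) :
    Tendsto (fun X : ℕ => (((Icc 1 X).filter fun D => Squarefree D ∧ Cl P D.primeFactors ∧
        GdJ P f 𝒰 D.primeFactors).card : ℝ) /
      (((Icc 1 X).filter fun D => Squarefree D ∧ Cl P D.primeFactors).card : ℝ)) atTop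
      (nhds (c2 ^ 𝒰.card)) :=
  law_num hO hh0 hH hh hW (c2_pow _).1 (c2_pow _).2
    (t_JBOX hO Pool.Agent.Y356.CQ.t_EQ Pool.Agent.Y697.JQ.t_JLA f hW.2)

end Pool.Agent.X99.GJ
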