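import Mathlib
import Pool.Agent.X99.GJ.Asy

/-!
# Joint laws: patterns, and the translation to twists of numbers
-/

set_option autoImplicit false
set_option linter.unusedVariables false

open Finset Filter

namespace Pool.Agent.X99.GJ

open Pool.Agent.Y703.CQ (c2)
open Pool.Agent.X99.GQ

variable {P : Par}

/-- cardinalities of filters, for arbitrary instances -/
theorem fc {α : Type} (s : Finset α) {p q : α → Prop} {i : DecidablePred p} {j : DecidablePred q}
    (h : ∀ a ∈ s, (p a ↔ q a)) : (@Finset.filter α p i s).card = (@Finset.filter α q j s).card := by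
  congr 1
  ext a
  rw [Finset.mem_filter, Finset.mem_filter]
  exact and_congr_right fun ha => h a ha

theorem card_split {α : Type} (s : Finset α) (Q R : α → Prop) {i : DecidablePred fun D => Q D ∧ R D}
    {j : DecidablePred fun D => Q D ∧ ¬ R D} {k : DecidablePred Q} :
    (@Finset.filter α (fun D => Q D ∧ R D) i s).card +
      (@Finset.filter α (fun D => Q D ∧ ¬ R D) j s).card = (@Finset.filter α Q k s).card := by
  classical
  have h := Finset.card_filter_add_card_filter_not (s := s.filter Q) R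
  rw [Finset.filter_filter, Finset.filter_filter] at h
  refine Eq.trans (congrArg₂ (· + ·) ?_ ?_) (h.trans ?_)
  · exact fc s fun a _ => Iff.rfl
  · exact fc s fun a _ => Iff.rfl
  · exact fc s fun a _ => Iff.rfl

open Classical in
/-- **the joint distribution**: the events are asymptotically independent -/
theorem pattern_set (hO : Ok P) {h : ℝ} (hh0 : 0 ≤ h) (hH : HAL P h) (hh : h < al P)
    {W : Finset ℕ} (hW : ∀ u ∈ W, u.Prime ∧ Nat.Coprime u P.N) (f : ℕ → ZMod 2)
    (K : Finset (Finset ℕ)) : (∀ U ∈ K, U ⊆ W) → ∀ G : Finset (Finset ℕ), (∀ U ∈ G, U ⊆ W) →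
    Disjoint G K →
    Tendsto (fun X : ℕ => (((SS P X).filter fun S => (∀ U ∈ G, Gd P f (symmDiff S U)) ∧
      ∀ U ∈ K, ¬ Gd P f (symmDiff S U)).card : ℝ) / ((SS P X).card : ℝ)) atTop
      (nhds (c2 ^ G.card * (1 - c2) ^ K.card)) := by
  induction K using Finset.induction_on with
  | empty =>
    intro _ G hG _
    have h1 := law hO hh0 hH hh (W := W) (𝒰 := G) ⟨hW, hG⟩ (c2_pow _).1 (c2_pow _).2
      (t_JBOX hO Pool.Agent.Y356.CQ.t_EQ Pool.Agent.Y697.JQ.t_JLA f hG)
    rw [Finset.card_empty, pow_zero, mul_one]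
    refine h1.congr fun X => ?_
    congr 3
    refine Finset.filter_congr fun S _ => ?_
    unfold GdJ
    simp
  | insert U K hU ih =>
    intro hK G hG hd
    have hK' : ∀ a ∈ K, a ⊆ W := fun a ha => hK a (Finset.mem_insert_of_mem ha)
    have hUW : U ⊆ W := hK U (Finset.mem_insert_self U K)
    have hUG : U ∉ G := fun h => Finset.disjoint_left.1 hd h (Finset.mem_insert_self U K)
    have hd1 : Disjoint G K := hd.mono_right (Finset.subset_insert U K)
    have hd2 : Disjoint (insert U G) K := Finset.disjoint_insert_left.2 ⟨hU, hd1⟩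
    have h1 := ih hK' G hG hd1
    have h2 := ih hK' (insert U G) (fun a ha => by
      rcases Finset.mem_insert.1 ha with rfl | ha
      · exact hUW
      · exact hG a ha) hd2
    have h3 := h1.sub h2
    rw [Finset.card_insert_of_notMem hUG] at h3
    rw [Finset.card_insert_of_notMem hU]
    have e : c2 ^ G.card * (1 - c2) ^ (K.card + 1) =
        c2 ^ G.card * (1 - c2) ^ K.card - c2 ^ (G.card + 1) * (1 - c2) ^ K.card := by ring
    rw [e]
    refine h3.congr fun X => ?_
    rw [← sub_div]
    congr 1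
    have key : ((SS P X).filter fun S => (∀ a ∈ insert U G, Gd P f (symmDiff S a)) ∧
          ∀ a ∈ K, ¬ Gd P f (symmDiff S a)).card +
        ((SS P X).filter fun S => (∀ a ∈ G, Gd P f (symmDiff S a)) ∧
          ∀ a ∈ insert U K, ¬ Gd P f (symmDiff S a)).card =
        ((SS P X).filter fun S => (∀ U ∈ G, Gd P f (symmDiff S U)) ∧
          ∀ U ∈ K, ¬ Gd P f (symmDiff S U)).card := by
      refine Eq.trans (congrArg₂ (· + ·) ?_ ?_) (card_split (SS P X)
        (fun S => (∀ U ∈ G, Gd P f (symmDiff S U)) ∧ ∀ U ∈ K, ¬ Gd P f (symmDiff S U))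
        (fun S => Gd P f (symmDiff S U)) (i := fun _ => Classical.propDecidable _)
        (j := fun _ => Classical.propDecidable _))
      · refine fc _ fun S _ => ?_
        rw [Finset.forall_mem_insert]
        tauto
      · refine fc _ fun S _ => ?_
        rw [Finset.forall_mem_insert]
        tauto
    rw [← key]
    push_cast
    ring

/-- the squarefree part of the product of two squarefree numbers -/
def star (m D : ℕ) : ℕ := m * D / (Nat.gcd m D) ^ 2

theorem star_eq {m : ℕ} (D : ℕ) (hm : m ≠ 0) : ∃ g a b : ℕ, 0 < g ∧ m = g * a ∧ D = g * b ∧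
    Nat.Coprime a b ∧ star m D = a * b := by
  have hg : 0 < Nat.gcd m D := Nat.gcd_pos_of_pos_left D (Nat.pos_of_ne_zero hm)
  obtain ⟨a, ha⟩ := Nat.gcd_dvd_left m D
  obtain ⟨b, hb⟩ := Nat.gcd_dvd_right m D
  refine ⟨Nat.gcd m D, a, b, hg, ha, hb, ?_, ?_⟩
  · have h : Nat.gcd (Nat.gcd m D * a) (Nat.gcd m D * b) = Nat.gcd m D * Nat.gcd a b :=
      Nat.gcd_mul_left _ _ _
    rw [← ha, ← hb] at h
    have h2 : Nat.gcd m D * 1 = Nat.gcd m D * Nat.gcd a b := by rw [mul_one]; exact h
    exact (Nat.eq_of_mul_eq_mul_left hg h2).symm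
  · unfold star
    have e : m * D = a * b * (Nat.gcd m D) ^ 2 := by
      calc m * D = (Nat.gcd m D * a) * (Nat.gcd m D * b) := congrArg₂ (· * ·) ha hb
        _ = _ := by ring
    rw [e]
    exact Nat.mul_div_cancel _ (pow_pos hg 2)

theorem star_pf {m D : ℕ} (hm : Squarefree m) (hD : Squarefree D) : Squarefree (star m D) ∧
    (star m D).primeFactors = symmDiff D.primeFactors m.primeFactors ∧
    ∃ k : ℕ, k ≠ 0 ∧ m * D = star m D * k ^ 2 := by
  obtain ⟨g, a, b, hg, h1, h2, hc, he⟩ := star_eq D hm.ne_zero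
  have hga : Nat.Coprime g a := (Nat.squarefree_mul_iff.1 (h1 ▸ hm)).1
  have hgb : Nat.Coprime g b := (Nat.squarefree_mul_iff.1 (h2 ▸ hD)).1
  have hsa : Squarefree a := (Nat.squarefree_mul_iff.1 (h1 ▸ hm)).2.2
  have hsb : Squarefree b := (Nat.squarefree_mul_iff.1 (h2 ▸ hD)).2.2
  refine ⟨?_, ?_, g, hg.ne', ?_⟩
  · rw [he]
    exact Nat.squarefree_mul_iff.2 ⟨hc, hsa, hsb⟩
  · rw [he, hc.primeFactors_mul, h1, h2, hga.primeFactors_mul, hgb.primeFactors_mul]
    have d1 := hc.disjoint_primeFactors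
    have d2 := hga.disjoint_primeFactors
    have d3 := hgb.disjoint_primeFactors
    ext p
    have e1 : p ∈ a.primeFactors → p ∉ b.primeFactors := fun h => Finset.disjoint_left.1 d1 h
    have e2 : p ∈ g.primeFactors → p ∉ a.primeFactors := fun h => Finset.disjoint_left.1 d2 h
    have e3 : p ∈ g.primeFactors → p ∉ b.primeFactors := fun h => Finset.disjoint_left.1 d3 h
    simp only [Finset.mem_symmDiff, Finset.mem_union]
    tauto
  · rw [he, h1, h2]
    ring

theorem star_one (D : ℕ) : star 1 D = D := by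
  unfold star
  simp

open Classical in
/-- **the joint law for the twists** -/
theorem pattern_num (hO : Ok P) {h : ℝ} (hh0 : 0 ≤ h) (hH : HAL P h) (hh : h < al P)
    (f : ℕ → ZMod 2) (G K : Finset ℕ)
    (hG : ∀ m ∈ G, Squarefree m ∧ ∀ p : ℕ, p.Prime → p ∣ m → Nat.Coprime p P.N)
    (hK : ∀ m ∈ K, Squarefree m ∧ ∀ p : ℕ, p.Prime → p ∣ m → Nat.Coprime p P.N)
    (hd : Disjoint G K) :
    Tendsto (fun X : ℕ => (((Icc 1 X).filter fun D => (Squarefree D ∧ Cl P D.primeFactors) ∧
        (∀ m ∈ G, Gd P f (star m D).primeFactors) ∧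
        ∀ m ∈ K, ¬ Gd P f (star m D).primeFactors).card : ℝ) /
      (((Icc 1 X).filter fun D => Squarefree D ∧ Cl P D.primeFactors).card : ℝ)) atTop
      (nhds (c2 ^ G.card * (1 - c2) ^ K.card)) := by
  set V : ℕ → Finset ℕ := fun m => m.primeFactors with hV
  have hinj : ∀ a b : ℕ, Squarefree a → Squarefree b → V a = V b → a = b := by
    intro a b ha hb hab
    have hab' : a.primeFactors = b.primeFactors := hab
    rw [← Nat.prod_primeFactors_of_squarefree ha, ← Nat.prod_primeFactors_of_squarefree hb, hab']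
  have cG : (G.image V).card = G.card := Finset.card_image_of_injOn
    fun a ha b hb hab => hinj a b (hG a ha).1 (hG b hb).1 hab
  have cK : (K.image V).card = K.card := Finset.card_image_of_injOn
    fun a ha b hb hab => hinj a b (hK a ha).1 (hK b hb).1 hab
  have hdI : Disjoint (G.image V) (K.image V) := by
    rw [Finset.disjoint_left]
    intro U h1 h2
    obtain ⟨a, ha, rfl⟩ := Finset.mem_image.1 h1
    obtain ⟨b, hb, hab⟩ := Finset.mem_image.1 h2
    have := hinj a b (hG a ha).1 (hK b hb).1 hab.symm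
    subst this
    exact Finset.disjoint_left.1 hd ha hb
  set W : Finset ℕ := (G ∪ K).biUnion V with hWd
  have hW : ∀ u ∈ W, u.Prime ∧ Nat.Coprime u P.N := by
    intro u hu
    obtain ⟨m, hm, hu⟩ := Finset.mem_biUnion.1 hu
    obtain ⟨h1, h2, -⟩ := Nat.mem_primeFactors.1 hu
    rcases Finset.mem_union.1 hm with hm | hm
    · exact ⟨h1, (hG m hm).2 u h1 h2⟩
    · exact ⟨h1, (hK m hm).2 u h1 h2⟩
  have hGW : ∀ U ∈ G.image V, U ⊆ W := by
    intro U hU
    obtain ⟨a, ha, rfl⟩ := Finset.mem_image.1 hU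
    exact Finset.subset_biUnion_of_mem V (Finset.mem_union_left _ ha)
  have hKW : ∀ U ∈ K.image V, U ⊆ W := by
    intro U hU
    obtain ⟨a, ha, rfl⟩ := Finset.mem_image.1 hU
    exact Finset.subset_biUnion_of_mem V (Finset.mem_union_right _ ha)
  have hlim := pattern_set hO hh0 hH hh hW f (K.image V) hKW (G.image V) hGW hdI
  rw [cG, cK] at hlim
  have hst : ∀ D : ℕ, Squarefree D → ∀ m ∈ G ∪ K, (star m D).primeFactors =
      symmDiff D.primeFactors (V m) := by
    intro D hD m hm
    rcases Finset.mem_union.1 hm with hm | hm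
    · exact (star_pf (hG m hm).1 hD).2.1
    · exact (star_pf (hK m hm).1 hD).2.1
  refine hlim.congr fun X => ?_
  have e1 := Pool.Agent.X99.GQ.card_eq P X (fun S => (∀ U ∈ G.image V, Gd P f (symmDiff S U)) ∧
      ∀ U ∈ K.image V, ¬ Gd P f (symmDiff S U))
  have e2 := Pool.Agent.X99.GQ.card_eq P X (fun _ => True)
  have e3 : ((SS P X).filter fun S => (∀ U ∈ G.image V, Gd P f (symmDiff S U)) ∧
      ∀ U ∈ K.image V, ¬ Gd P f (symmDiff S U)).card =
      ((Icc 1 X).filter fun D => (Squarefree D ∧ Cl P D.primeFactors) ∧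
        (∀ m ∈ G, Gd P f (star m D).primeFactors) ∧
        ∀ m ∈ K, ¬ Gd P f (star m D).primeFactors).card := by
    refine Eq.trans (fc _ fun _ _ => Iff.rfl) (e1.symm.trans (fc _ fun D _ => ?_))
    constructor
    · rintro ⟨h1, h2, h3, h4⟩
      refine ⟨⟨h1, h2⟩, fun m hm => ?_, fun m hm => ?_⟩
      · rw [hst D h1 m (Finset.mem_union_left _ hm)]
        exact h3 _ (Finset.mem_image_of_mem V hm)
      · rw [hst D h1 m (Finset.mem_union_right _ hm)]
        exact h4 _ (Finset.mem_image_of_mem V hm)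
    · rintro ⟨⟨h1, h2⟩, h3, h4⟩
      refine ⟨h1, h2, fun U hU => ?_, fun U hU => ?_⟩
      · obtain ⟨m, hm, rfl⟩ := Finset.mem_image.1 hU
        rw [← hst D h1 m (Finset.mem_union_left _ hm)]
        exact h3 m hm
      · obtain ⟨m, hm, rfl⟩ := Finset.mem_image.1 hU
        rw [← hst D h1 m (Finset.mem_union_right _ hm)]
        exact h4 m hm
  have e4 : (SS P X).card = ((Icc 1 X).filter fun D => Squarefree D ∧ Cl P D.primeFactors).card := by
    have h1 : (SS P X).card = ((SS P X).filter fun _ => True).card := by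
      rw [Finset.filter_true]
    refine h1.trans (Eq.trans (fc _ fun _ _ => Iff.rfl) (e2.symm.trans (fc _ fun D _ => ?_)))
    rw [and_true]
  rw [e3, e4]

end Pool.Agent.X99.GJ
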